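import Pool.Agent.Helper40.XA.Main

set_option autoImplicit false

namespace Pool.Agent.Results.MP_5e72fd_co.AlmostAllPairs

open Finset

/-- `G` is generically 3-independent: some placement in 3-space has linearly independent
rigidity matrix rows. -/
def Indep3 {n : ℕ} (G : SimpleGraph (Fin n)) : Prop :=
  ∃ p : Fin n → Fin 3 → ℝ, LinearIndependent ℝ
    (fun x : {q : Fin n × Fin n // q.1 < q.2 ∧ G.Adj q.1 q.2} =>
      fun k : Fin n =>
        if k = x.1.1 then p x.1.1 - p x.1.2
        else if k = x.1.2 then p x.1.2 - p x.1.1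
        else (0 : Fin 3 → ℝ))

/-- The graph obtained from `G` by deleting the edges `ab`, `cd` and adding a new vertex joined
to `a`, `b`, `c`, `d`, `e` is generically 3-independent. -/
def XIndep {n : ℕ} (G : SimpleGraph (Fin n)) (a b c d e : Fin n) : Prop :=
  ∃ p : Fin (n + 1) → Fin 3 → ℝ, LinearIndependent ℝ
    (fun x : {q : Fin (n + 1) × Fin (n + 1) // q.1 < q.2 ∧
        ((∃ u v : Fin n, q.1 = u.castSucc ∧ q.2 = v.castSucc ∧ G.Adj u v ∧
            s(u, v) ≠ s(a, b) ∧ s(u, v) ≠ s(c, d)) ∨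
         (q.2 = Fin.last n ∧
            ∃ u ∈ ({a, b, c, d, e} : Finset (Fin n)), q.1 = u.castSucc))} =>
      fun k : Fin (n + 1) =>
        if k = x.1.1 then p x.1.1 - p x.1.2
        else if k = x.1.2 then p x.1.2 - p x.1.1
        else (0 : Fin 3 → ℝ))

/-- There is a sparse family `B` of four-element sets of vertices such that the X-replacement on
the disjoint edges `ab`, `cd` and any fifth vertex `e` preserves generic 3-independence whenever
`{a, b, c, d}` is not in `B` or spans a complete graph. -/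
theorem result (n : ℕ) (G : SimpleGraph (Fin n)) (hG : Indep3 G) :
    ∃ B : Finset (Finset (Fin n)),
      (∀ T ∈ B, T.card = 4) ∧
      (∀ T : Finset (Fin n), T.card = 4 → G.IsClique T → T ∈ B) ∧
      B.card ≤ n - 3 ∧
      (∀ v : Fin n, (B.filter (fun T => v ∈ T)).card ≤ Nat.card (G.neighborSet v) - 2) ∧
      ∀ a b c d e : Fin n, [a, b, c, d, e].Nodup → G.Adj a b → G.Adj c d →
        (({a, b, c, d} : Finset (Fin n)) ∉ B ∨
          G.IsClique (({a, b, c, d} : Finset (Fin n)) : Set (Fin n))) →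
        XIndep G a b c d e := by
  classical
  refine ⟨univ.filter (fun T => Pool.Agent.Helper40.XA.Bad4 G T), ?_, ?_, ?_, ?_, ?_⟩
  · intro T hT
    exact Pool.Agent.Helper40.XA.bad_card G T (mem_filter.1 hT).2
  · intro T hc hcl
    exact mem_filter.2 ⟨mem_univ _, Pool.Agent.Helper40.XA.k4_bad G T hc hcl⟩
  · exact Pool.Agent.Helper40.XA.total_bad G hG _ fun T hT => (mem_filter.1 hT).2
  · intro v
    refine Pool.Agent.Helper40.XA.count_bad G hG v _ fun T hT => ?_
    obtain ⟨h1, h2⟩ := mem_filter.1 hT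
    exact ⟨h2, (mem_filter.1 h1).2⟩
  · intro a b c d e hnd hab hcd h
    by_contra hX
    have hU : Pool.Agent.Helper40.XA.Uns G {a, b, c, d} :=
      ⟨a, b, c, d, e, hnd, rfl, hab, hcd, hX⟩
    obtain ⟨h1, h2⟩ := Pool.Agent.Helper40.XA.uns_bad G hG _ hU
    rcases h with h | h
    · exact h (mem_filter.2 ⟨mem_univ _, h1⟩)
    · exact h2 h

end Pool.Agent.Results.MP_5e72fd_co.AlmostAllPairs
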