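import Pool.Agent.Helper40.XA.Few4

set_option autoImplicit false

namespace Pool.Agent.Results.MP_5e72fd_co.FewFifthVertices

open Finset

/-- `G` is generically 3-independent: some placement in 3-space has linearly independent
rigidity matrix rows. -/
def Indep3 {n : ℕ} (G : SimpleGraph (Fin n)) : Prop :=
  ∃ p : Fin n → Fin 3 → ℝ, LinearIndependent ℝ
    (fun x : {q : Fin n × Fin n // q.1 < q.2 ∧ G.Adj q.1 q.2} =>
      fun k : Fin n =>
        if k = x.1.1 then p x.1.1 - p x.1.2
        else if k = x.1.2 then p x.1.2 - p x.1.1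
        else (0 : Fin 3 → ℝ))

/-- The graph obtained from `G` by deleting the edges `ab`, `cd` and adding a new vertex joined
to `a`, `b`, `c`, `d`, `e` is generically 3-independent. -/
def XIndep {n : ℕ} (G : SimpleGraph (Fin n)) (a b c d e : Fin n) : Prop :=
  ∃ p : Fin (n + 1) → Fin 3 → ℝ, LinearIndependent ℝ
    (fun x : {q : Fin (n + 1) × Fin (n + 1) // q.1 < q.2 ∧
        ((∃ u v : Fin n, q.1 = u.castSucc ∧ q.2 = v.castSucc ∧ G.Adj u v ∧
            s(u, v) ≠ s(a, b) ∧ s(u, v) ≠ s(c, d)) ∨
         (q.2 = Fin.last n ∧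
            ∃ u ∈ ({a, b, c, d, e} : Finset (Fin n)), q.1 = u.castSucc))} =>
      fun k : Fin (n + 1) =>
        if k = x.1.1 then p x.1.1 - p x.1.2
        else if k = x.1.2 then p x.1.2 - p x.1.1
        else (0 : Fin 3 → ℝ))

/-- `k` missing pairs of vertices of `T` can be added to `G` together: some generically
3-independent graph containing `G` has `k` edges inside `T` which are not edges of `G`. -/
def Adds {n : ℕ} (G : SimpleGraph (Fin n)) (T : Finset (Fin n)) (k : ℕ) : Prop :=
  ∃ G' : SimpleGraph (Fin n), G ≤ G' ∧ Indep3 G' ∧ ∃ F : Finset (Fin n × Fin n),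
    F.card = k ∧ ∀ q ∈ F, q.1 < q.2 ∧ q.1 ∈ T ∧ q.2 ∈ T ∧ G'.Adj q.1 q.2 ∧ ¬ G.Adj q.1 q.2

/-- Let `ab`, `cd` be disjoint edges of a generically 3-independent graph `G`, and let `r` be the
largest number of missing pairs of `{a, b, c, d}` that can be added to `G` together. Among the
vertices `e` such that at least one missing pair of `{a, b, c, d, e}` can be added, the
X-replacement fails for at most `4 - r`, and for none if `r = 0`. -/
theorem result (n : ℕ) (G : SimpleGraph (Fin n)) (_hG : Indep3 G) (a b c d : Fin n)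
    (hab : G.Adj a b) (hcd : G.Adj c d) (r : ℕ)
    (hr : IsGreatest {k | Adds G {a, b, c, d} k} r) :
    Nat.card {e : Fin n // [a, b, c, d, e].Nodup ∧ Adds G {a, b, c, d, e} 1 ∧
      ¬ XIndep G a b c d e} ≤ if r = 0 then 0 else 4 - r :=
  Pool.Agent.Helper40.XA.few_all G a b c d hab hcd r hr

end Pool.Agent.Results.MP_5e72fd_co.FewFifthVertices
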