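import Pool.Agent.Helper65.XR.Fin
import Pool.Agent.Helper65.XR.Row
import Pool.Agent.Helper65.XR.Ex
import Pool.Agent.Helper65.XR.Id
import Pool.Agent.Helper65.XR.Ta
import Pool.Agent.Helper65.XR.Gen
import Pool.Agent.Helper65.XR.Line
import Pool.Agent.Helper65.XR.Bar
import Pool.Agent.Helper65.XR.Loc
import Pool.Agent.Helper65.XR.D2
import Pool.Agent.Helper65.XR.D3
import Pool.Agent.Helper65.XR.D4i
import Pool.Agent.Helper65.XR.D4
import Pool.Agent.Helper65.XR.BadM
import Pool.Agent.Helper65.XR.K6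

set_option autoImplicit false

namespace Pool.Agent.Results.MP_5e72fd_co.FourFreePairs

open Pool.Agent.Helper65 Finset

/-- `G` is generically 3-independent: some placement in 3-space has linearly independent
rigidity matrix rows. -/
def Indep3 {n : ℕ} (G : SimpleGraph (Fin n)) : Prop :=
  ∃ p : Fin n → Fin 3 → ℝ, LinearIndependent ℝ
    (fun x : {q : Fin n × Fin n // q.1 < q.2 ∧ G.Adj q.1 q.2} =>
      fun k : Fin n =>
        if k = x.1.1 then p x.1.1 - p x.1.2
        else if k = x.1.2 then p x.1.2 - p x.1.1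
        else (0 : Fin 3 → ℝ))

/-- X-replacement preserves generic 3-independence when four further edges on the five vertices
`a,b,c,d,e` can be added to `G` without creating dependence. -/
theorem result (n : ℕ) (G : SimpleGraph (Fin n)) (a b c d e : Fin n)
    (hnd : [a, b, c, d, e].Nodup) (hab : G.Adj a b) (hcd : G.Adj c d)
    (h : ∃ G' : SimpleGraph (Fin n), G ≤ G' ∧ Indep3 G' ∧
      ∃ F : Finset (Fin n × Fin n), F.card = 4 ∧ ∀ q ∈ F, q.1 < q.2 ∧
        q.1 ∈ ({a, b, c, d, e} : Finset (Fin n)) ∧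
        q.2 ∈ ({a, b, c, d, e} : Finset (Fin n)) ∧ G'.Adj q.1 q.2 ∧ ¬ G.Adj q.1 q.2) :
    ∃ p : Fin (n + 1) → Fin 3 → ℝ, LinearIndependent ℝ
      (fun x : {q : Fin (n + 1) × Fin (n + 1) // q.1 < q.2 ∧
          ((∃ u v : Fin n, q.1 = u.castSucc ∧ q.2 = v.castSucc ∧ G.Adj u v ∧
              s(u, v) ≠ s(a, b) ∧ s(u, v) ≠ s(c, d)) ∨
           (q.2 = Fin.last n ∧
              ∃ u ∈ ({a, b, c, d, e} : Finset (Fin n)), q.1 = u.castSucc))} =>
        fun k : Fin (n + 1) =>
          if k = x.1.1 then p x.1.1 - p x.1.2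
          else if k = x.1.2 then p x.1.2 - p x.1.1
          else (0 : Fin 3 → ℝ)) := by
  have hrow : XR.StRow := XR.row_pair
  have hdu : XR.StDU := XR.dual
  have hex : XR.StEX := XR.ex hrow
  have hid : XR.StID := XR.idt hex
  have hta : XR.StTA := XR.ta
  have hgen : XR.StGEN := XR.gen
  have hline : XR.StLINE := XR.line
  have hbar : XR.StBAR := XR.bar
  have hcoo : XR.StCOO := XR.coo
  have hloc : XR.StLOC := XR.loc hbar hcoo
  have hthree : XR.StTHREE := XR.three hcoo
  have hd2 : XR.StD2 := XR.d2 hcoo hloc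
  have hd3 : XR.StD3 := XR.d3 hcoo hloc hthree hline
  have hd4i : XR.StD4I := XR.d4i hcoo hloc hline
  have halg : XR.StALG := XR.alg
  have hd4 : XR.StD4 := XR.d4 hbar hcoo hloc hthree hd4i halg
  have hbad : XR.StBAD := XR.bad hrow hdu hcoo hid hta
  have hk6 : XR.StK6 := XR.k6
  exact XR.final hrow hdu hcoo hk6 hgen hd2 hd3 hd4 hbad n G a b c d e hnd hab hcd (Or.inr h)

end Pool.Agent.Results.MP_5e72fd_co.FourFreePairs
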